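import Pool.Agent.Lib.MP_6d0ce9_ag.St.Strict
import Pool.Agent.Lib.MP_6d0ce9_ag.Sh

/-!
# A conservative realisation is faithful on the heart
-/

set_option linter.unusedSectionVars false

universe w v u

open CategoryTheory Category Limits MonoidalCategory Pretriangulated Triangulated

namespace Pool.Agent.Lib.MotT

namespace Realization

variable {T : Type u} [Category.{v} T] [Preadditive T] [HasZeroObject T] [HasShift T ℤ]
  [∀ n : ℤ, (shiftFunctor T n).Additive] [Pretriangulated T] [IsTriangulated T]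
  [MonoidalCategory T] [SymmetricCategory T] [∀ X : T, (tensorLeft X).CommShift ℤ]
  [∀ X : T, (tensorLeft X).IsTriangulated] {F : Type w} [Field F] {R : Realization T F}
  {t : TStructure T}

/-- A morphism from `D^{≤ a}` to `D^{≥ a}` which is zero on cohomology is zero. -/
theorem eq_zero_of_level [CharZero F] (hnd : Nondegenerate t) (ht : TensorCompatible t)
    (hrig : IsRigid T) (hcons : R.Conservative) {X Y : T} {a : ℤ} (hX : t.IsLE X a)
    (hY : t.IsGE Y a) (f : X ⟶ Y) (hf : ∀ i, R.mp i f = 0) : f = 0 := by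
  obtain ⟨C, g, h, hT⟩ := distinguished_cocone_triangle f
  obtain ⟨A, B, u, v, δ, hT', hA, hB⟩ := exists_trunc t C (a - 1) a (by lia)
  obtain ⟨E, k, l, hE⟩ := distinguished_cocone_triangle (g ≫ v)
  have o := someOctahedron rfl (rot_of_distTriang _ hT) (rot_of_distTriang _ hT') hE
  have hX1 : t.IsLE (X⟦(1 : ℤ)⟧) (a - 1) := t.isLE_shift X a 1 (a - 1) (by lia)
  have hA2 : t.IsLE (A⟦(1 : ℤ)⟧) (a - 2) := t.isLE_shift A (a - 1) 1 (a - 2) (by lia)
  have hA1 : t.IsLE (A⟦(1 : ℤ)⟧) (a - 1) := t.isLE_of_le _ (a - 2) (a - 1) (by lia)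
  have hE1 : t.IsLE E (a - 1) := isLE_ext t o.mem (a - 1) hX1 hA1
  have hB' : t.IsGE B (a - 1 + 1) := by rwa [show a - 1 + 1 = a by ring]
  have hk : ∀ m, R.mp m k = 0 := (R.tmap_eq_zero_iff k).1
    (tmap_eq_zero_of_levels hnd ht hrig hcons hB' hE1 k)
  have hinj : ∀ (m : ℤ) (x : R.Hm m Y), R.mp m (g ≫ v) x = 0 → x = 0 := by
    intro m x hx
    rw [mp_comp_apply] at hx
    have h1 : R.Lev t (a - 1) m Y x := by
      refine strict hnd ht hrig hcons g (fun x' hx' => ?_) x ((lev_iff hT' hA hB' _).2 hx)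
      obtain ⟨y, rfl⟩ := R.exact₂' hT m x' hx'
      rw [hf, LinearMap.zero_apply]
    obtain ⟨A', g', y, hA', rfl⟩ := h1
    rw [t.zero_of_isLE_of_isGE g' (a - 1) a (by lia) hA' hY, mp_zero, LinearMap.zero_apply]
  have hE0 : IsZero E := by
    apply hcons
    intro m
    have h1 : ∀ x : R.Hm m E, x = 0 := by
      intro x
      have h2 : R.mp m l x = 0 := by
        refine mp_shift_injective rfl (g ≫ v) (hinj (1 + m)) _ ?_
        have h3 : l ≫ (g ≫ v)⟦(1 : ℤ)⟧' = 0 := comp_distTriang_mor_zero₃₁ _ hE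
        rw [← mp_comp_apply, h3, mp_zero, LinearMap.zero_apply]
      obtain ⟨y, hy⟩ := R.exact₃ hE m x h2
      rw [← hy]
      change R.mp m k y = 0
      rw [hk, LinearMap.zero_apply]
    exact ⟨fun x y => (h1 x).trans (h1 y).symm⟩
  have : IsIso (g ≫ v) := (Triangle.isZero₃_iff_isIso₁ _ hE).1 hE0
  have h4 : f ≫ g = 0 := comp_distTriang_mor_zero₁₂ _ hT
  rw [← cancel_mono (g ≫ v), ← assoc, h4, zero_comp, zero_comp]

end Realization

end Pool.Agent.Lib.MotT
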