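import Pool.Agent.Lib.MP_6d0ce9_ag.St.Bas
import Pool.Agent.Lib.MP_6d0ce9_ag.St.Zz
import Pool.Agent.Lib.MP_6d0ce9_ag.Weights

/-!
# The determinant of an object concentrated in one degree
-/

set_option linter.unusedSectionVars false

universe w v u

open CategoryTheory Category Limits MonoidalCategory Pretriangulated Triangulated

namespace Pool.Agent.Lib.MotT

namespace Realization

variable {T : Type u} [Category.{v} T] [Preadditive T] [HasZeroObject T] [HasShift T ℤ]
  [∀ n : ℤ, (shiftFunctor T n).Additive] [Pretriangulated T] [IsTriangulated T]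
  [MonoidalCategory T] [SymmetricCategory T] [∀ X : T, (tensorLeft X).CommShift ℤ]
  [∀ X : T, (tensorLeft X).IsTriangulated] {F : Type w} [Field F] {R : Realization T F}

/-- the sign as an integer -/
private def Det_sg {n : ℕ} (σ : Equiv.Perm (Fin (n + 1))) : ℤ := ((Equiv.Perm.sign σ : ℤˣ) : ℤ)

private lemma Det_sg_mul {n : ℕ} (σ τ : Equiv.Perm (Fin (n + 1))) :
    Det_sg (σ * τ) = Det_sg σ * Det_sg τ := by
  unfold Det_sg
  rw [Equiv.Perm.sign_mul, Units.val_mul]

private lemma Det_sg_sq {n : ℕ} (σ : Equiv.Perm (Fin (n + 1))) : Det_sg σ * Det_sg σ = 1 := by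
  unfold Det_sg
  rw [← Units.val_mul, Int.units_mul_self, Units.val_one]

private lemma Det_sg_one {n : ℕ} : Det_sg (1 : Equiv.Perm (Fin (n + 1))) = 1 := by
  unfold Det_sg
  rw [Equiv.Perm.sign_one, Units.val_one]

/-- the action of a word if all degrees are the same -/
private lemma Det_word (R : Realization T F) (X : T) {I : Type} (d : I → ℤ) (s : ℤ)
    (hd : ∀ b, d b = s) (h : ∀ b, R.Hm (d b) X) (n : ℕ) (w : List (Fin n))
    (f : Fin (n + 1) → I) :
    R.tmap (wordAct X n w) (R.Bas_e X (fun b => R.inc (d b) X (h b)) n f) =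
      (((s * s).negOnePow : ℤ) ^ w.length) •
        R.Bas_e X (fun b => R.inc (d b) X (h b)) n (f ∘ wordPerm w) := by
  induction w generalizing f with
  | nil =>
    have h1 : wordAct X n [] = 𝟙 _ := rfl
    have h2 : (wordPerm ([] : List (Fin n))) = 1 := rfl
    rw [h1, tmap_id, h2, List.length_nil, pow_zero, one_smul]
    rfl
  | cons j w ih =>
    have h1 : wordAct X n (j :: w) = swapAt X n j ≫ wordAct X n w := rfl
    have h2 : wordPerm (j :: w) = Equiv.swap j.castSucc j.succ * wordPerm w := by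
      simp [wordPerm]
    rw [h1, tmap_comp_apply, Bas_swap, map_zsmul, ih, h2, List.length_cons, pow_succ', mul_smul,
      hd, hd]
    rfl

/-- the coefficients of the (anti)symmetriser -/
private def Det_z (ε : ℤ) {n : ℕ} (σ : Equiv.Perm (Fin (n + 1))) : ℤ :=
  if ε = 1 then Det_sg σ else 1

private lemma Det_z_mul (ε : ℤ) {n : ℕ} (σ τ : Equiv.Perm (Fin (n + 1))) :
    Det_z ε (σ * τ) = Det_z ε σ * Det_z ε τ := by
  unfold Det_z
  split_ifs
  · exact Det_sg_mul σ τ
  · rw [one_mul]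

private lemma Det_z_len (ε : ℤ) (hε : ε = 1 ∨ ε = -1) {n : ℕ} (w : List (Fin n)) :
    Det_z ε (wordPerm w) * ε ^ w.length = Det_sg (wordPerm w) := by
  rcases hε with h | h
  · rw [h, one_pow, mul_one]
    unfold Det_z
    rw [if_pos rfl]
  · rw [h]
    unfold Det_z Det_sg
    rw [if_neg (by norm_num), one_mul, sign_wordPerm]
    push_cast
    rfl

/-- the square of the (anti)symmetriser -/
private lemma Det_sq (X : T) (n : ℕ) (ε : ℤ) :
    zact X n (Det_z ε) ≫ zact X n (Det_z ε) =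
      ((Fintype.card (Equiv.Perm (Fin (n + 1))) : ℕ) : ℤ) • zact X n (Det_z ε) := by
  have h1 : ∀ σ : Equiv.Perm (Fin (n + 1)), (Det_z ε σ • pact X n σ) ≫ zact X n (Det_z ε) =
      zact X n (Det_z ε) := by
    intro σ
    rw [zact, Preadditive.comp_sum, ← Equiv.sum_comp (Equiv.mulLeft σ)
      (fun τ => Det_z ε τ • pact X n τ)]
    refine Finset.sum_congr rfl fun τ _ => ?_
    rw [Preadditive.comp_zsmul, Preadditive.zsmul_comp, ← pact_mul, Equiv.coe_mulLeft,
      Det_z_mul, smul_smul, mul_comm]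
  have h2 : zact X n (Det_z ε) ≫ zact X n (Det_z ε) =
      ∑ σ : Equiv.Perm (Fin (n + 1)), (Det_z ε σ • pact X n σ) ≫ zact X n (Det_z ε) := by
    rw [← Preadditive.sum_comp]
    rfl
  rw [h2, Finset.sum_congr rfl fun σ _ => h1 σ, Finset.sum_const, Finset.card_univ, natCast_zsmul]

/-- The determinant of an object concentrated in one degree: a retract of a tensor power whose
cohomology has dimension one. -/
theorem exists_det [IsIdempotentComplete T] [CharZero F] (hcons : R.Conservative) {E : T}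
    {s : ℤ} (hE : R.ConcentratedIn s E) (hE0 : ¬ IsZero E) :
    ∃ (n : ℕ) (L : T), Nonempty (Retract L (tpow E n)) ∧ R.dm L = 1 := by
  classical
  have hdm : 0 < R.dm E := by
    rcases Nat.eq_zero_or_pos (R.dm E) with h | h
    · exact absurd (hcons E ((R.dm_eq_zero_iff E).1 h)) hE0
    · exact h
  obtain ⟨n, hn⟩ : ∃ n, n + 1 = R.dm E := ⟨R.dm E - 1, by omega⟩
  obtain ⟨x, d, h, hx⟩ := R.Bas_homog E
  obtain ⟨e, he⟩ := R.Bas_basis E x n
  have hx' : (x : Fin (R.dm E) → R.Tot E) = fun b => R.inc (d b) E (h b) := funext hx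
  have hd : ∀ b, d b = s := by
    intro b
    by_contra hb
    have h1 : R.Van (d b) E := hE (d b) hb
    have h2 : h b = 0 := h1.elim _ _
    have h3 := hx b
    rw [h2, map_zero] at h3
    exact x.ne_zero b h3
  obtain ⟨ε, hε⟩ : ∃ ε : ℤ, ε = ((s * s).negOnePow : ℤ) := ⟨_, rfl⟩
  have hε1 : ε = 1 ∨ ε = -1 := by
    rw [hε]
    exact Bas_negOnePow _
  -- the action of a permutation
  have hact : ∀ (f : Fin (n + 1) → Fin (R.dm E)) (σ : Equiv.Perm (Fin (n + 1))),
      Det_z ε σ • R.tmap (pact E n σ) (e f) = Det_sg σ • e (f ∘ σ) := by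
    intro f σ
    have h1 := (exists_word σ).choose_spec
    have h2 : R.tmap (pact E n σ) (e f) =
        (ε ^ (exists_word σ).choose.length) • e (f ∘ σ) := by
      rw [he, he, hx', hε]
      have h3 := Det_word R E d s hd h n (exists_word σ).choose f
      rw [h1] at h3
      exact h3
    have h4 := Det_z_len ε hε1 (exists_word σ).choose
    rw [h1] at h4
    rw [h2, smul_smul, h4]
  obtain ⟨g, hg⟩ : ∃ g, g = zact E n (Det_z ε) := ⟨_, rfl⟩
  have hge : ∀ f, R.tmap g (e f) = ∑ σ : Equiv.Perm (Fin (n + 1)), Det_sg σ • e (f ∘ σ) := by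
    intro f
    rw [hg, zact, tmap_sum, LinearMap.sum_apply]
    refine Finset.sum_congr rfl fun σ _ => ?_
    rw [tmap_zsmul, LinearMap.smul_apply, hact]
  obtain ⟨N, hN⟩ : ∃ N : ℤ, N = ((Fintype.card (Equiv.Perm (Fin (n + 1))) : ℕ) : ℤ) := ⟨_, rfl⟩
  have hN0 : N ≠ 0 := by
    rw [hN]
    exact_mod_cast Fintype.card_ne_zero
  have hNF : (N : F) ≠ 0 := Int.cast_ne_zero.2 hN0
  have hgg : g ≫ g = N • g := by
    rw [hg, hN]
    exact Det_sq E n ε
  have hiso := isIso_zsmul hcons (tpow E n) N hN0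
  obtain ⟨μ, hμ⟩ : ∃ μ, μ = inv (N • 𝟙 (tpow E n)) := ⟨_, rfl⟩
  have hμ1 : (N • 𝟙 (tpow E n)) ≫ μ = 𝟙 _ := by rw [hμ, IsIso.hom_inv_id]
  have hμ2 : μ ≫ (N • 𝟙 (tpow E n)) = 𝟙 _ := by rw [hμ, IsIso.inv_hom_id]
  have hcomm : μ ≫ g = g ≫ μ := by
    have h1 : (N • 𝟙 (tpow E n)) ≫ g = g ≫ (N • 𝟙 (tpow E n)) := by
      rw [Preadditive.zsmul_comp, Preadditive.comp_zsmul, id_comp, comp_id]
    calc μ ≫ g = μ ≫ g ≫ (N • 𝟙 (tpow E n)) ≫ μ := by rw [hμ1, comp_id]
      _ = μ ≫ (g ≫ (N • 𝟙 (tpow E n))) ≫ μ := by simp only [assoc]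
      _ = μ ≫ ((N • 𝟙 (tpow E n)) ≫ g) ≫ μ := by rw [h1]
      _ = (μ ≫ (N • 𝟙 (tpow E n))) ≫ g ≫ μ := by simp only [assoc]
      _ = g ≫ μ := by rw [hμ2, id_comp]
  have hgN : g ≫ g = g ≫ (N • 𝟙 (tpow E n)) := by
    rw [hgg, Preadditive.comp_zsmul, comp_id]
  have hidem : (g ≫ μ) ≫ (g ≫ μ) = g ≫ μ := by
    calc (g ≫ μ) ≫ (g ≫ μ) = g ≫ (μ ≫ g) ≫ μ := by simp only [assoc]
      _ = (g ≫ g) ≫ μ ≫ μ := by rw [hcomm]; simp only [assoc]
      _ = g ≫ ((N • 𝟙 (tpow E n)) ≫ μ) ≫ μ := by rw [hgN]; simp only [assoc]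
      _ = g ≫ μ := by rw [hμ1, id_comp]
  obtain ⟨L, i, p, hip, hpi⟩ := IsIdempotentComplete.idempotents_split (tpow E n) (g ≫ μ) hidem
  refine ⟨n, L, ⟨⟨i, p, hip⟩⟩, ?_⟩
  have hμt : ∀ y, R.tmap μ y = (N : F)⁻¹ • y := by
    intro y
    have h1 : R.tmap (N • 𝟙 (tpow E n)) (R.tmap μ y) = y := by
      rw [← tmap_comp_apply, hμ2, tmap_id]
      rfl
    rw [zz_tmap_smul_id] at h1
    calc R.tmap μ y = ((N : F)⁻¹ * (N : F)) • R.tmap μ y := by
          rw [inv_mul_cancel₀ hNF, one_smul]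
      _ = (N : F)⁻¹ • y := by rw [mul_smul, h1]
  have hpt : ∀ y, R.tmap i (R.tmap p y) = (N : F)⁻¹ • R.tmap g y := by
    intro y
    rw [← tmap_comp_apply, hpi, tmap_comp_apply, hμt]
  -- the vector v
  let f0 : Fin (n + 1) ≃ Fin (R.dm E) := finCongr hn
  obtain ⟨v, hv⟩ : ∃ v, v = R.tmap g (e f0) := ⟨_, rfl⟩
  have hgv : R.tmap g v = (N : F) • v := by
    rw [hv, ← tmap_comp_apply, hgg, tmap_zsmul, LinearMap.smul_apply, Int.cast_smul_eq_zsmul]
  have hv0 : v ≠ 0 := by
    intro h0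
    have h1 : e.repr v f0 = 1 := by
      rw [hv, hge, map_sum, Finsupp.finsetSum_apply, Finset.sum_eq_single 1]
      · rw [Det_sg_one, one_smul]
        show e.repr (e (f0 ∘ (1 : Equiv.Perm (Fin (n + 1))))) f0 = 1
        rw [Module.Basis.repr_self]
        exact Finsupp.single_eq_same
      · intro σ _ hσ
        rw [map_zsmul, Finsupp.smul_apply, Module.Basis.repr_self, Finsupp.single_apply, if_neg,
          smul_zero]
        intro h2
        apply hσ
        ext j
        have h3 := congrFun h2 j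
        have h4 : σ j = j := f0.injective h3
        rw [h4]
        rfl
      · intro h2
        exact absurd (Finset.mem_univ _) h2
    rw [h0, map_zero] at h1
    exact zero_ne_one h1
  -- the values of g
  have hval : ∀ f, R.tmap g (e f) ∈ Submodule.span F {v} := by
    intro f
    by_cases hf : Function.Injective f
    · have hbij : Function.Bijective (f0.symm ∘ f) :=
        Finite.injective_iff_bijective.1 (f0.symm.injective.comp hf)
      let τ : Equiv.Perm (Fin (n + 1)) := Equiv.ofBijective _ hbij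
      have hτ : f = f0 ∘ τ := by
        funext j
        show f j = f0 (f0.symm (f j))
        rw [Equiv.apply_symm_apply]
      have h1 : R.tmap g (e f) = Det_sg τ • v := by
        rw [hv, hge, hge, Finset.smul_sum, ← Equiv.sum_comp (Equiv.mulLeft τ)
          (fun σ => Det_sg τ • Det_sg σ • e (f0 ∘ σ))]
        refine Finset.sum_congr rfl fun σ _ => ?_
        rw [Equiv.coe_mulLeft, smul_smul, Det_sg_mul, ← mul_assoc, Det_sg_sq, one_mul, hτ]
        rfl
      rw [h1, ← Int.cast_smul_eq_zsmul F]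
      exact Submodule.smul_mem _ _ (Submodule.mem_span_singleton_self v)
    · have h1 : ∃ a b, f a = f b ∧ a ≠ b := by
        by_contra hcon
        apply hf
        intro a b hab
        by_contra hne
        exact hcon ⟨a, b, hab, hne⟩
      obtain ⟨a, b, hab, hne⟩ := h1
      have h2 : f ∘ Equiv.swap a b = f := by
        funext j
        show f (Equiv.swap a b j) = f j
        by_cases ha : j = a
        · rw [ha, Equiv.swap_apply_left, hab]
        · by_cases hb : j = b
          · rw [hb, Equiv.swap_apply_right, hab]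
          · rw [Equiv.swap_apply_of_ne_of_ne ha hb]
      have h3 : R.tmap g (e f) = -R.tmap g (e f) := by
        conv_lhs => rw [hge, ← Equiv.sum_comp (Equiv.mulLeft (Equiv.swap a b))
          (fun σ => Det_sg σ • e (f ∘ σ))]
        rw [hge, ← Finset.sum_neg_distrib]
        refine Finset.sum_congr rfl fun σ _ => ?_
        have h4 : Det_sg (Equiv.swap a b) = -1 := by
          unfold Det_sg
          rw [Equiv.Perm.sign_swap hne]
          rfl
        have h5 : f ∘ ⇑(Equiv.swap a b * σ) = f ∘ σ := by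
          conv_rhs => rw [← h2]
          rfl
        rw [Equiv.coe_mulLeft, Det_sg_mul, h4, h5, neg_one_mul, neg_smul]
      have h4 : (2 : F) • R.tmap g (e f) = 0 := by
        rw [two_smul]
        nth_rewrite 1 [h3]
        rw [neg_add_cancel]
      rcases smul_eq_zero.1 h4 with h5 | h5
      · exact absurd h5 two_ne_zero
      · rw [h5]
        exact Submodule.zero_mem _
  have hall : ∀ y, R.tmap g y ∈ Submodule.span F {v} := by
    intro y
    have h1 : (⊤ : Submodule F (R.Tot (tpow E n))) ≤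
        (Submodule.span F {v}).comap (R.tmap g) := by
      rw [← e.span_eq, Submodule.span_le]
      rintro _ ⟨f, rfl⟩
      exact hval f
    exact h1 (Submodule.mem_top (x := y))
  have hw0 : R.tmap i (R.tmap p v) = v := by
    rw [hpt, hgv, smul_smul, inv_mul_cancel₀ hNF, one_smul]
  have hpv : R.tmap p v ≠ 0 := by
    intro h0
    rw [h0, map_zero] at hw0
    exact hv0 hw0.symm
  refine (finrank_eq_one_iff_of_nonzero' (R.tmap p v) hpv).2 fun y => ?_
  have hy : y = R.tmap p (R.tmap i y) := by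
    rw [← tmap_comp_apply, hip, tmap_id]
    rfl
  have hy2 : R.tmap i y = (N : F)⁻¹ • R.tmap g (R.tmap i y) := by
    rw [← hpt, ← hy]
  obtain ⟨c, hc⟩ := Submodule.mem_span_singleton.1 (hall (R.tmap i y))
  refine ⟨(N : F)⁻¹ * c, ?_⟩
  rw [hy, hy2, ← hc, ← map_smul, mul_smul]

end Realization

end Pool.Agent.Lib.MotT
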