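import Pool.Agent.Lib.MP_6d0ce9_ag.St.Bas
import Pool.Agent.Lib.MP_6d0ce9_ag.St.Zz
import Pool.Agent.Lib.MP_6d0ce9_ag.St.Dm

/-!
# Objects of dimension one are invertible
-/

set_option linter.unusedSectionVars false

universe w v u

open CategoryTheory Category Limits MonoidalCategory Pretriangulated Triangulated

namespace Pool.Agent.Lib.MotT

namespace Realization

variable {T : Type u} [Category.{v} T] [Preadditive T] [HasZeroObject T] [HasShift T ℤ]
  [∀ n : ℤ, (shiftFunctor T n).Additive] [Pretriangulated T] [IsTriangulated T]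
  [MonoidalCategory T] [SymmetricCategory T] [∀ X : T, (tensorLeft X).CommShift ℤ]
  [∀ X : T, (tensorLeft X).IsTriangulated] {F : Type w} [Field F] {R : Realization T F}

lemma io_dm_unit (R : Realization T F) : R.dm (𝟙_ T) = 1 := by
  have h1 := R.dm_tensor (𝟙_ T) (𝟙_ T)
  rw [R.dm_iso (λ_ (𝟙_ T))] at h1
  have h2 : R.dm (𝟙_ T) ≠ 0 := by
    intro h
    have h3 := (R.dm_eq_zero_iff (𝟙_ T)).1 h 0
    have := R.unit
    exact not_subsingleton _ h3
  have h3 : R.dm (𝟙_ T) * 1 = R.dm (𝟙_ T) * R.dm (𝟙_ T) := by rw [mul_one]; exact h1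
  exact (Nat.eq_of_mul_eq_mul_left (Nat.pos_of_ne_zero h2) h3).symm

/-- induction on the elements of the cohomology of a tensor product -/
lemma io_induction {X Y : T} {P : R.Tot (X ⊗ Y) → Prop} (h0 : P 0)
    (ha : ∀ a b, P a → P b → P (a + b)) (hc : ∀ x y, P (R.tcup X Y x y)) (z : R.Tot (X ⊗ Y)) :
    P z := by
  obtain ⟨a, rfl⟩ := (R.tcup_bijective X Y).2 z
  induction a using TensorProduct.induction_on with
  | zero => rw [map_zero]; exact h0
  | add a b h1 h2 => rw [map_add]; exact ha _ _ h1 h2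
  | tmul x y => rw [TensorProduct.lift.tmul]; exact hc x y

/-- The products of nonzero elements are nonzero. -/
lemma io_tcup_ne_zero {X Y : T} {x : R.Tot X} {y : R.Tot Y} (hx : x ≠ 0) (hy : y ≠ 0) :
    R.tcup X Y x y ≠ 0 := by
  intro h
  have h1 : TensorProduct.lift (R.tcup X Y) (x ⊗ₜ[F] y) = 0 := by
    rw [TensorProduct.lift.tmul, h]
  exact tmul_ne_zero_aux hx hy ((injective_iff_map_eq_zero _).1 (R.tcup_bijective X Y).1 _ h1)

lemma io_iso_injective {X Y : T} (e : X ≅ Y) : Function.Injective (R.tmap e.hom) := by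
  intro x y h
  have h1 := congrArg (R.tmap e.inv) h
  rwa [← tmap_comp_apply, ← tmap_comp_apply, e.hom_inv_id, tmap_id] at h1

/-- The pairing between the cohomology of an object and the cohomology of its dual is
nondegenerate. -/
lemma io_pairing {L L' : T} [ExactPairing L L'] (y : R.Tot L')
    (hy : ∀ x : R.Tot L, R.tmap (ε_ L L') (R.tcup L' L y x) = 0) : y = 0 := by
  by_contra hy0
  have h1 : R.dm (𝟙_ T) ≠ 0 := by rw [io_dm_unit]; exact one_ne_zero
  obtain ⟨c, hc⟩ : ∃ c : R.Tot (𝟙_ T), c ≠ 0 := by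
    by_contra hcon
    push Not at hcon
    apply h1
    rw [dm, Module.finrank_zero_iff]
    exact ⟨fun a b => (hcon a).trans (hcon b).symm⟩
  have e1 := ExactPairing.coevaluation_evaluation L L'
  have e2 : (ρ_ L').hom = (L' ◁ η_ L L') ≫ (α_ L' L L').inv ≫ (ε_ L L' ▷ L') ≫
      (λ_ L').hom := by
    have := congrArg (fun z => z ≫ (λ_ L').hom) e1
    simp only [assoc, Iso.inv_hom_id, comp_id] at this
    exact this.symm
  have h2 : ∀ z : R.Tot (L ⊗ L'), R.tmap ((α_ L' L L').inv ≫ (ε_ L L' ▷ L') ≫ (λ_ L').hom)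
      (R.tcup L' (L ⊗ L') y z) = 0 := by
    intro z
    induction z using io_induction with
    | h0 => rw [map_zero, map_zero]
    | ha a b h1 h2 => rw [map_add, map_add, h1, h2, add_zero]
    | hc x w =>
      rw [tmap_comp_apply, Bas_assoc_inv, tmap_comp_apply, Bas_whiskerRight, hy x, map_zero,
        LinearMap.zero_apply, map_zero]
  have h3 : R.tmap (ρ_ L').hom (R.tcup L' (𝟙_ T) y c) = 0 := by
    rw [e2, tmap_comp_apply, Bas_whiskerLeft]
    exact h2 _
  exact io_tcup_ne_zero hy0 hc (io_iso_injective (ρ_ L') (h3.trans (map_zero _).symm))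

lemma io_dm_dual {L L' : T} [ExactPairing L L'] : R.dm L' ≤ R.dm L := by
  let Φ : R.Tot L' →ₗ[F] R.Tot L →ₗ[F] R.Tot (𝟙_ T) := (R.tcup L' L).compr₂ (R.tmap (ε_ L L'))
  have hΦ : Function.Injective Φ := by
    rw [injective_iff_map_eq_zero]
    intro y hy
    exact io_pairing (L := L) y fun x => LinearMap.congr_fun hy x
  have h1 := LinearMap.finrank_le_finrank_of_injective hΦ
  have h2 : Module.finrank F (R.Tot (𝟙_ T)) = 1 := io_dm_unit R
  rw [Module.finrank_linearMap, h2, mul_one] at h1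
  exact h1

/-- The coevaluation is not zero on cohomology. -/
lemma io_coev {L L' : T} [ExactPairing L L'] (hL : R.dm L ≠ 0) : R.tmap (η_ L L') ≠ 0 := by
  intro h
  apply hL
  have e1 := ExactPairing.evaluation_coevaluation L L'
  have e2 : (λ_ L).hom = (η_ L L' ▷ L) ≫ (α_ L L' L).hom ≫ (L ◁ ε_ L L') ≫ (ρ_ L).hom := by
    have := congrArg (fun z => z ≫ (ρ_ L).hom) e1
    simp only [assoc, Iso.inv_hom_id, comp_id] at this
    exact this.symm
  have h1 : R.tmap (η_ L L' ▷ L) = 0 := by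
    refine LinearMap.ext fun z => ?_
    induction z using io_induction with
    | h0 => rw [map_zero, map_zero]
    | ha a b h1 h2 => rw [map_add, map_add, h1, h2]
    | hc x y => rw [Bas_whiskerRight, h, LinearMap.zero_apply, map_zero, LinearMap.zero_apply,
        LinearMap.zero_apply]
  have h2 : R.tmap (λ_ L).hom = 0 := by
    rw [e2, tmap_comp, h1, LinearMap.comp_zero]
  have h3 : R.tmap (𝟙 L) = 0 := by
    rw [← (λ_ L).inv_hom_id, tmap_comp, h2, LinearMap.zero_comp]
  rw [tmap_id] at h3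
  rw [dm, Module.finrank_zero_iff]
  exact ⟨fun a b => (LinearMap.congr_fun h3 a).trans (LinearMap.congr_fun h3 b).symm⟩

/-- If the total cohomology has dimension one, the object is invertible. -/
theorem exists_inverse (hrig : IsRigid T) (hcons : R.Conservative) {L : T} (hL : R.dm L = 1) :
    ∃ L' : T, Nonempty (L ⊗ L' ≅ 𝟙_ T) := by
  obtain ⟨L', ⟨hD⟩⟩ := hrig L
  refine ⟨L', ?_⟩
  have h1 : R.tmap (η_ L L') ≠ 0 := io_coev (by rw [hL]; exact one_ne_zero)
  have h2 : R.dm L' ≤ 1 := by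
    have := io_dm_dual (R := R) (L := L) (L' := L')
    rwa [hL] at this
  have h3 : R.dm (L ⊗ L') ≤ 1 := by rw [dm_tensor, hL, one_mul]; exact h2
  obtain ⟨c, hc⟩ : ∃ c, R.tmap (η_ L L') c ≠ 0 := by
    by_contra hcon
    push Not at hcon
    exact h1 (LinearMap.ext hcon)
  have h4 : Module.finrank F (R.Tot (𝟙_ T)) = 1 := io_dm_unit R
  have h5 : Module.finrank F (R.Tot (L ⊗ L')) = 1 := by
    refine le_antisymm h3 ?_
    have : Nontrivial (R.Tot (L ⊗ L')) := ⟨⟨_, 0, hc⟩⟩
    exact Module.finrank_pos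
  have hinj : Function.Injective (R.tmap (η_ L L')) := by
    rw [injective_iff_map_eq_zero]
    intro x hx
    have hc0 : c ≠ 0 := fun h => hc (by rw [h, map_zero])
    obtain ⟨a, ha⟩ := (finrank_eq_one_iff_of_nonzero' c hc0).1 h4 x
    rw [← ha, map_smul, smul_eq_zero] at hx
    rcases hx with hx | hx
    · rw [← ha, hx, zero_smul]
    · exact absurd hx hc
  have hbij : Function.Bijective (R.tmap (η_ L L')) :=
    ⟨hinj, (LinearMap.injective_iff_surjective_of_finrank_eq_finrank (h4.trans h5.symm)).1 hinj⟩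
  have := R.isIso_of_tmap hcons (η_ L L') hbij
  exact ⟨(asIso (η_ L L')).symm⟩

end Realization

end Pool.Agent.Lib.MotT
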