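import Pool.Agent.Lib.MP_6d0ce9_ag.Weights

/-!
# The part of a given weight
-/

set_option linter.unusedSectionVars false

universe w v u

open CategoryTheory Category Limits MonoidalCategory Pretriangulated Triangulated
  ObjectProperty Polynomial

namespace Pool.Agent.Lib.MotT

namespace Realization

variable {T : Type u} [Category.{v} T] [Preadditive T] [HasZeroObject T] [HasShift T ℤ]
  [∀ n : ℤ, (shiftFunctor T n).Additive] [Pretriangulated T] [MonoidalCategory T]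
  [SymmetricCategory T] {F : Type w} [Field F] {R : Realization T F}
  [∀ X : T, (tensorLeft X).CommShift ℤ]
  [∀ X : T, (tensorLeft X).IsTriangulated]

/-- The direct summand of weight `k`. -/
theorem exists_weight_part [IsIdempotentComplete T] [CharZero F] (hcons : R.Conservative)
    {q : ℝ} (hq : 1 < q) {G : T} (φ : End G) (Q : ℤ → ℤ[X]) (hQ1 : ∀ j, IsWeil q j (Q j))
    (hQ2 : ∀ j, R.mp j (pe φ (Q j) : End G) = 0)
    (hnil : ∀ g : End G, (∀ i, R.mp i g = 0) → ∃ N : ℕ, g ^ N = 0) (k : ℤ) :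
    ∃ (H : T) (i : H ⟶ G) (p : G ⟶ H), i ≫ p = 𝟙 H ∧ R.ConcentratedIn k H ∧
      ∀ x : R.Hm k G, R.mp k (p ≫ i) x = x := by
  obtain ⟨b, hb⟩ := R.bounded G
  obtain ⟨s, hs⟩ : ∃ s : Finset ℤ, ∀ j, j ∈ s ↔ j ≠ k ∧ |j| ≤ |b| := by
    refine ⟨(Finset.Icc (-|b|) |b|).erase k, fun j => ?_⟩
    rw [Finset.mem_erase, Finset.mem_Icc, abs_le]
  set Q' : ℤ[X] := ∏ j ∈ s, Q j with hQ'
  have hroot : ∀ z : ℂ, aeval z Q' = 0 → ‖z‖ ^ 2 ≠ q ^ k := by
    intro z hz h
    rw [hQ', map_prod, Finset.prod_eq_zero_iff] at hz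
    obtain ⟨j, hj, hz⟩ := hz
    have h2 := (hQ1 j).2 z hz
    rw [h] at h2
    have h3 := ((hs j).1 hj).1
    exact h3 (zpow_right_injective₀ (by linarith) hq.ne' h2.symm)
  have hroot0 : ∀ z : ℂ, aeval z (Q k) = 0 → ‖z‖ ^ 2 = q ^ k := by
    intro z hz
    rw [(hQ1 k).2 z hz]
  have hdvd : ∀ i, i ≠ k → ∀ P : ℤ[X], Q' ∣ P → R.mp i (pe φ P : End G) = 0 := by
    intro i hi P hP
    by_cases hi2 : |i| ≤ |b|
    · obtain ⟨c, rfl⟩ := (Finset.dvd_prod_of_mem Q ((hs i).2 ⟨hi, hi2⟩)).trans hP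
      rw [map_mul, mp_mul, hQ2, LinearMap.zero_comp]
    · have h2 : Subsingleton (R.Hm i G) :=
        hb i (lt_of_le_of_lt (le_abs_self b) (not_le.1 hi2))
      ext x
      exact h2.elim _ _
  have hz : ∀ i, R.mp i (pe φ (Q k * Q') : End G) = 0 := by
    intro i
    by_cases hi : i = k
    · subst hi
      rw [map_mul, mp_mul, hQ2, LinearMap.zero_comp]
    · exact hdvd i hi _ (dvd_mul_left _ _)
  obtain ⟨N, hN⟩ := hnil _ hz
  have hN' : (pe φ (Q k ^ (N + 1) * Q' ^ (N + 1)) : End G) = 0 := by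
    rw [← mul_pow, map_pow, pow_succ, hN, zero_mul]
  obtain ⟨a, b', m, hm, hab⟩ := exists_bezout (Q k ^ (N + 1)) (Q' ^ (N + 1)) (by
    intro z hz1 hz2
    rw [map_pow] at hz1 hz2
    exact hroot z (pow_eq_zero_iff (Nat.succ_ne_zero N) |>.1 hz2)
      (hroot0 z (pow_eq_zero_iff (Nat.succ_ne_zero N) |>.1 hz1)))
  have hiso := isIso_zsmul hcons G m hm
  obtain ⟨μ, hμ1, hμ2⟩ : ∃ μ : End G, (m : End G) * μ = 1 ∧ μ * (m : End G) = 1 := by
    refine ⟨inv (m • 𝟙 G), ?_, ?_⟩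
    · rw [← zsmul_one]
      exact IsIso.inv_hom_id (m • 𝟙 G)
    · rw [← zsmul_one]
      exact IsIso.hom_inv_id (m • 𝟙 G)
  set e₁ : End G := pe φ (b' * Q' ^ (N + 1)) with he₁
  set e₂ : End G := pe φ (a * Q k ^ (N + 1)) with he₂
  have h12 : e₂ + e₁ = (m : End G) := by
    rw [he₁, he₂, ← map_add, hab, pe_C]
  have h120 : e₁ * e₂ = 0 := by
    rw [he₁, he₂, ← map_mul, show b' * Q' ^ (N + 1) * (a * Q k ^ (N + 1)) =
      (b' * a) * (Q k ^ (N + 1) * Q' ^ (N + 1)) by ring, map_mul, hN', mul_zero]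
  have hcomm : ∀ x : End G, μ * x = x * μ := by
    intro x
    have h2 : (m : End G) * x = x * (m : End G) := (Int.cast_commute m x)
    calc μ * x = μ * x * ((m : End G) * μ) := by rw [hμ1, mul_one]
      _ = μ * (x * (m : End G)) * μ := by noncomm_ring
      _ = μ * ((m : End G) * x) * μ := by rw [h2]
      _ = (μ * (m : End G)) * x * μ := by noncomm_ring
      _ = x * μ := by rw [hμ2, one_mul]
  have hsq : e₁ * e₁ = e₁ * (m : End G) := by
    rw [← h12, mul_add, h120, zero_add]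
  have hidem : (e₁ * μ) * (e₁ * μ) = e₁ * μ := by
    calc (e₁ * μ) * (e₁ * μ) = e₁ * (μ * e₁) * μ := by noncomm_ring
      _ = (e₁ * e₁) * μ * μ := by rw [hcomm]; noncomm_ring
      _ = e₁ * ((m : End G) * μ) * μ := by rw [hsq]; noncomm_ring
      _ = e₁ * μ := by rw [hμ1, mul_one]
  obtain ⟨H, i, p, hip, hpi⟩ := IsIdempotentComplete.idempotents_split G (e₁ * μ : End G) hidem
  refine ⟨H, i, p, hip, ?_, ?_⟩
  · intro j hj
    have h2 : R.mp j (e₁ * μ : End G) = 0 := by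
      rw [mp_mul, he₁, hdvd j hj _ (Dvd.dvd.mul_left (dvd_pow_self _
        (Nat.succ_ne_zero N)) _)]
      rfl
    have h3 : ∀ x : R.Hm j H, x = 0 := by
      intro x
      have h4 : R.mp j (i ≫ (p ≫ i) ≫ p) x = x := by
        rw [show i ≫ (p ≫ i) ≫ p = (i ≫ p) ≫ (i ≫ p) by simp only [assoc], hip, comp_id, mp_id,
          LinearMap.id_apply]
      rw [← h4, mp_comp_apply, hpi, mp_comp_apply, h2, LinearMap.zero_apply, map_zero]
    exact ⟨fun x y => (h3 x).trans (h3 y).symm⟩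
  · intro x
    have h5 : (1 : End G) = e₁ * μ + e₂ * μ := by
      rw [← add_mul, add_comm, h12, hμ1]
    have h6 : R.mp k (e₂ * μ : End G) = 0 := by
      rw [mp_mul, he₂, map_mul, mp_mul, pow_succ, map_mul, mp_mul, hQ2, LinearMap.comp_zero,
        LinearMap.comp_zero, LinearMap.zero_comp]
    have h7 : R.mp k (e₁ * μ : End G) = LinearMap.id := by
      have h8 : R.mp k (𝟙 G) = R.mp k (e₁ * μ + e₂ * μ : End G) := congrArg (R.mp k) h5
      have h9 : R.mp k (e₁ * μ + e₂ * μ : End G) =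
          R.mp k (e₁ * μ : End G) + R.mp k (e₂ * μ : End G) := R.mp_add k _ _
      rw [mp_id, h9, h6, add_zero] at h8
      exact h8.symm
    rw [hpi, h7, LinearMap.id_apply]

end Realization

end Pool.Agent.Lib.MotT
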