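import Pool.Agent.Lib.MP_6d0ce9_ag.St2.HeartF
import Pool.Agent.Lib.MP_6d0ce9_ag.St2.Det
import Pool.Agent.Lib.MP_6d0ce9_ag.St2.InvObj
import Pool.Agent.Lib.MP_6d0ce9_ag.St2.Wt
import Pool.Agent.Lib.MP_6d0ce9_ag.St.Pos

/-!
# Exactness from Frobenius weights
-/

set_option linter.unusedSectionVars false

universe w v u

open CategoryTheory Category Limits MonoidalCategory Pretriangulated Triangulated
  Polynomial
open scoped ZeroObject

namespace Pool.Agent.Lib.MotT

namespace Realization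

lemma dg_eq (i : ℤ) (n : ℕ) : dg i n = ((n : ℤ) + 1) * i := by
  induction n with
  | zero => simp [dg]
  | succ n ih =>
    simp only [dg]
    rw [ih]
    push_cast
    ring

variable {T : Type u} [Category.{v} T] [Preadditive T] [HasZeroObject T] [HasShift T ℤ]
  [∀ n : ℤ, (shiftFunctor T n).Additive] [Pretriangulated T] [IsTriangulated T]
  [MonoidalCategory T] [SymmetricCategory T] [∀ X : T, (tensorLeft X).CommShift ℤ]
  [∀ X : T, (tensorLeft X).IsTriangulated] {F : Type w} [Field F] {R : Realization T F}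
  {t : TStructure T}

lemma isZero_of_shift {X : T} (n : ℤ) (h : IsZero (X⟦n⟧)) : IsZero X :=
  ((shiftFunctor T (-n)).map_isZero h).of_iso (shiftShiftNeg X n).symm

/-- A nonzero object of the heart concentrated in degree `s` has `s = 0`, if the heart contains
the invertible objects concentrated in degree `0`. -/
lemma eq_zero_of_heart_conc [IsIdempotentComplete T] [CharZero F]
    (ht : TensorCompatible t) (hrig : IsRigid T) (hcons : R.Conservative)
    (hinv : ∀ L L' : T, Nonempty (L ⊗ L' ≅ 𝟙_ T) → R.ConcentratedIn 0 L → t.heart L)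
    {E : T} {s : ℤ} (hE : t.heart E) (hs : R.ConcentratedIn s E) (hE0 : ¬ IsZero E) : s = 0 := by
  obtain ⟨n, L, ⟨r⟩, hL⟩ := exists_det hcons hs hE0
  obtain ⟨L', ⟨e⟩⟩ := exists_inverse hrig hcons hL
  have h1 : R.ConcentratedIn (dg s n) L := fun i hi => R.van_of_retract r (R.conc_tpow hs n i hi)
  obtain ⟨h3, h4⟩ := (heart_iff t _).1 (tpow_heart ht hE n)
  have h5 : t.IsLE L 0 := isLE_of_retract t r 0 h3
  have h6 : t.IsGE L 0 := isGE_of_retract t r 0 h4
  obtain ⟨m, hm⟩ : ∃ m, m = dg s n := ⟨_, rfl⟩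
  rw [← hm] at h1
  have e' : (L⟦m⟧) ⊗ (L'⟦-m⟧) ≅ 𝟙_ T :=
    shiftRight _ _ (-m) ≪≫ (shiftFunctor T (-m)).mapIso (shiftLeft L L' m) ≪≫
      shiftShiftNeg _ m ≪≫ e
  obtain ⟨h7, h8⟩ := (heart_iff t _).1 (hinv (L⟦m⟧) (L'⟦-m⟧) ⟨e'⟩ (by simpa using h1.shift m))
  have h9 : t.IsLE (L⟦m⟧) (-m) := t.isLE_shift L 0 m (-m) (by lia)
  have h10 : t.IsGE (L⟦m⟧) (-m) := t.isGE_shift L 0 m (-m) (by lia)
  have h11 : ¬ IsZero (L⟦m⟧) := by
    intro h
    have h12 := (R.dm_eq_zero_iff L).2 fun i => R.van_of_isZero (isZero_of_shift m h) i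
    lia
  have hm0 : m = 0 := by
    rcases lt_trichotomy m 0 with h | h | h
    · exact absurd ((IsZero.iff_id_eq_zero _).2
        (t.zero_of_isLE_of_isGE _ 0 (-m) (by lia) h7 h10)) h11
    · exact h
    · exact absurd ((IsZero.iff_id_eq_zero _).2
        (t.zero_of_isLE_of_isGE _ (-m) 0 (by lia) h9 h8)) h11
  rw [hm, dg_eq, mul_eq_zero] at hm0
  rcases hm0 with h | h
  · lia
  · exact h

/-- The cohomology objects are concentrated in the right degree. -/
lemma conc_of_piece [IsIdempotentComplete T] [CharZero F] (hnd : Nondegenerate t)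
    (ht : TensorCompatible t) (hrig : IsRigid T) (hcons : R.Conservative)
    (hinv : ∀ L L' : T, Nonempty (L ⊗ L' ≅ 𝟙_ T) → R.ConcentratedIn 0 L → t.heart L)
    {q : ℝ} (hq : 1 < q) {G : T} {a : ℤ} (h1 : t.IsLE G a) (h2 : t.IsGE G a)
    (φ : End G) (Q : ℤ → ℤ[X]) (hQ1 : ∀ j, IsWeil q j (Q j))
    (hQ2 : ∀ j, R.mp j (pe φ (Q j) : End G) = 0) : R.ConcentratedIn a G := by
  intro k hk
  obtain ⟨H, i, p, hip, hH, hx⟩ := exists_weight_part hcons hq φ Q hQ1 hQ2
    (fun g hg => ⟨1, by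
      rw [pow_one]
      exact eq_zero_of_level hnd ht hrig hcons h1 h2 _ hg⟩) k
  have hH0 : IsZero H := by
    by_contra hH0
    have h3 : t.IsLE H a := isLE_of_retract t ⟨i, p, hip⟩ a h1
    have h4 : t.IsGE H a := isGE_of_retract t ⟨i, p, hip⟩ a h2
    have h5 : t.heart (H⟦a⟧) := (heart_iff t _).2
      ⟨t.isLE_shift H a a 0 (by lia), t.isGE_shift H a a 0 (by lia)⟩
    have h6 := eq_zero_of_heart_conc ht hrig hcons hinv h5 (hH.shift a)
      fun h => hH0 (isZero_of_shift a h)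
    lia
  have h7 : ∀ x : R.Hm k G, x = 0 := by
    intro x
    rw [← hx x, hH0.eq_of_src i 0, Limits.comp_zero, mp_zero, LinearMap.zero_apply]
  exact ⟨fun x y => (h7 x).trans (h7 y).symm⟩

/-- If the cohomology of the generators has Frobenius weights, and all invertible objects
concentrated in degree `0` lie in the heart, then the realisation is exact. -/
theorem texact_of_frobenius [IsIdempotentComplete T] [CharZero F] (hnd : Nondegenerate t)
    (ht : TensorCompatible t) (hrig : IsRigid T) (hcons : R.Conservative)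
    (hinv : ∀ L L' : T, Nonempty (L ⊗ L' ≅ 𝟙_ T) → R.ConcentratedIn 0 L → t.heart L)
    {S : ObjectProperty T} (Fr : Frobenius R S) (hgen : S.IsClassicalTriangulatedGenerator) :
    R.TExact t := by
  apply R.texact_of_gen ht
  obtain ⟨P, hP⟩ : ∃ P : ObjectProperty T, P = Sorting.anyOf (R.DD t) := ⟨_, rfl⟩
  rw [← hP]
  have hP' : ∀ (n : ℤ) (X : T), t.IsLE X n → t.IsGE X n → R.ConcentratedIn n X → P X := by
    intro n X h1 h2 h3
    rw [hP]
    exact ⟨n, h1, h2, h3, extPower_of_conc hcons (by simpa using h3.shift n)⟩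
  have hu := unit_mem hnd ht
  have hne : P.Nonempty := ⟨𝟙_ T, hP' 0 _ hu.1 hu.2 R.unit_conc⟩
  rw [ObjectProperty.isClassicalTriangulatedGenerator_iff, eq_top_iff] at hgen ⊢
  refine hgen.trans ((ObjectProperty.triangEnvelope_le_iff _).2 ?_)
  intro A hA
  choose Q hQ1 hQ2 using Fr.weights A hA
  let π : T → Prop := fun X => ∀ j, R.mp j (pe (show End X from Fr.φ X) (Q j) : End X) = 0
  have hπA : π A := by
    intro j
    rw [mp_pe]
    exact pe_eq_zero (hQ2 j)
  have hnat : ∀ {X Y : T} (f : X ⟶ Y) (j : ℤ) (x : R.Hm j X),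
      R.mp j f (R.mp j (pe (show End X from Fr.φ X) (Q j) : End X) x) =
        R.mp j (pe (show End Y from Fr.φ Y) (Q j) : End Y) (R.mp j f x) := by
    intro X Y f j x
    have h1 := comp_pe f (show End X from Fr.φ X) (show End Y from Fr.φ Y)
      (Fr.natural f).symm (Q j)
    have h2 := congrArg (fun g => R.mp j g x) h1
    simp only [mp_comp_apply] at h2
    exact h2.symm
  have hsub : ∀ {X A' G : T} {f : A' ⟶ X} {g : X ⟶ G} {δ : G ⟶ A'⟦(1 : ℤ)⟧} {c : ℤ},
      Triangle.mk f g δ ∈ distTriang T → t.IsLE A' c → t.IsGE G (c + 1) → π X →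
        π A' ∧ π G := by
    intro X A' G f g δ c hT h1 h2 hX
    have hinj := fun m => trunc_injective (R := R) hnd ht hrig hcons m hT h1 h2
    constructor
    · intro j
      ext x
      rw [LinearMap.zero_apply]
      apply hinj j
      rw [hnat, hX, LinearMap.zero_apply]
    · intro j
      ext z
      rw [LinearMap.zero_apply]
      obtain ⟨y, rfl⟩ : ∃ y : R.Hm j X, R.mp j g y = z := by
        refine R.exact₃ hT j z ?_
        change R.mp j δ z = 0
        refine mp_shift_injective rfl f (hinj (1 + j)) _ ?_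
        have h3 : δ ≫ f⟦(1 : ℤ)⟧' = 0 := comp_distTriang_mor_zero₃₁ _ hT
        rw [← mp_comp_apply, h3, mp_zero, LinearMap.zero_apply]
      rw [← hnat, hX, LinearMap.zero_apply, map_zero]
  obtain ⟨b, hb1, hb2⟩ := bounded_of_conservative hnd ht hcons A
  have key : ∀ (k : ℕ) (X : T), π X → t.IsGE X (-(b : ℤ)) → t.IsLE X (-(b : ℤ) - 1 + k) →
      P.triangEnvelope X := by
    intro k
    induction k with
    | zero =>
      intro X _ h1 h2
      have h3 : IsZero X := by
        rw [IsZero.iff_id_eq_zero]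
        exact t.zero_of_isLE_of_isGE _ _ _ (by push_cast; lia) h2 h1
      exact P.triangEnvelope.prop_of_isZero h3
    | succ k ih =>
      intro X hX h1 h2
      obtain ⟨A', G, f, g, δ, hT, hA', hG⟩ := exists_trunc t X (-(b : ℤ) - 1 + k)
        (-(b : ℤ) - 1 + k + 1) rfl
      obtain ⟨hπ1, hπ2⟩ := hsub hT hA' hG hX
      have h3 : t.IsGE A' (-(b : ℤ)) :=
        isGE₁ t hT _ h1 (t.isGE_of_ge G _ (-(b : ℤ) - 1 + k + 1) (by lia))
      have h4 : t.IsLE G (-(b : ℤ) - 1 + k + 1) := by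
        refine isLE₃ t hT _ (t.isLE_of_le A' (-(b : ℤ) - 1 + k) _ (by lia)) ?_
        rwa [show -(b : ℤ) - 1 + ((k + 1 : ℕ) : ℤ) = -(b : ℤ) - 1 + k + 1 by
          push_cast; ring] at h2
      exact P.triangEnvelope.ext_of_isTriangulatedClosed₂ _ hT (ih A' hπ1 h3 hA')
        (P.le_triangEnvelope _ (hP' _ G h4 hG
          (conc_of_piece hnd ht hrig hcons hinv Fr.one_lt h4 hG _ Q hQ1 hπ2)))
  exact key (2 * b + 1) A hπA hb1 (t.isLE_of_le A b _ (by push_cast; lia))

end Realization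

end Pool.Agent.Lib.MotT
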