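import Pool.Agent.Lib.MP_6d0ce9_ag.St2.Wt
import Pool.Agent.Lib.MP_6d0ce9_ag.CritDefs
import Pool.Agent.Lib.MP_6d0ce9_ag.Sh

/-!
# Objects concentrated in one degree generate if there is a Frobenius
-/

set_option linter.unusedSectionVars false

universe w v u

open CategoryTheory Category Limits MonoidalCategory Pretriangulated Triangulated
  Polynomial
open scoped ZeroObject

namespace Pool.Agent.Lib.MotT

namespace Realization

variable {T : Type u} [Category.{v} T] [Preadditive T] [HasZeroObject T] [HasShift T ℤ]
  [∀ n : ℤ, (shiftFunctor T n).Additive] [Pretriangulated T] [IsTriangulated T]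
  [MonoidalCategory T] [SymmetricCategory T] [∀ X : T, (tensorLeft X).CommShift ℤ]
  [∀ X : T, (tensorLeft X).IsTriangulated] {F : Type w} [Field F] {R : Realization T F}

/-- The objects concentrated in one degree generate if there is a Frobenius and endomorphisms
which are zero on cohomology are nilpotent. -/
theorem commonGen_of_frobenius [IsIdempotentComplete T] [CharZero F] (hcons : R.Conservative)
    (hnil : ∀ (X : T) (g : End X), (∀ i, R.mp i g = 0) → ∃ N : ℕ, g ^ N = 0)
    {S : ObjectProperty T} (Fr : Frobenius R S) (hgen : S.IsClassicalTriangulatedGenerator) :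
    R.CommonGen R := by
  obtain ⟨P, hP⟩ : ∃ P : ObjectProperty T,
    P = fun G : T => ∃ n : ℤ, R.ConcentratedIn n G ∧ R.ConcentratedIn n G := ⟨_, rfl⟩
  change ObjectProperty.IsClassicalTriangulatedGenerator
    (fun G : T => ∃ n : ℤ, R.ConcentratedIn n G ∧ R.ConcentratedIn n G)
  rw [← hP]
  have hP' : ∀ (n : ℤ) (X : T), R.ConcentratedIn n X → P X := by
    intro n X h
    rw [hP]
    exact ⟨n, h, h⟩
  have hne : P.Nonempty := ⟨𝟙_ T, hP' 0 _ R.unit_conc⟩
  rw [ObjectProperty.isClassicalTriangulatedGenerator_iff, eq_top_iff] at hgen ⊢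
  refine hgen.trans ((ObjectProperty.triangEnvelope_le_iff _).2 ?_)
  intro A hA
  choose Q hQ1 hQ2 using Fr.weights A hA
  let π : T → Prop := fun X => ∀ j, R.mp j (pe (show End X from Fr.φ X) (Q j) : End X) = 0
  have hπA : π A := by
    intro j
    rw [mp_pe]
    exact pe_eq_zero (hQ2 j)
  have hnat : ∀ {X Y : T} (f : X ⟶ Y) (j : ℤ) (x : R.Hm j X),
      R.mp j f (R.mp j (pe (show End X from Fr.φ X) (Q j) : End X) x) =
        R.mp j (pe (show End Y from Fr.φ Y) (Q j) : End Y) (R.mp j f x) := by
    intro X Y f j x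
    have h1 := comp_pe f (show End X from Fr.φ X) (show End Y from Fr.φ Y)
      (Fr.natural f).symm (Q j)
    have h2 := congrArg (fun g => R.mp j g x) h1
    simp only [mp_comp_apply] at h2
    exact h2.symm
  have key : ∀ (s : Finset ℤ) (X : T), π X → (∀ j, j ∉ s → R.Van j X) → P.triangEnvelope X := by
    intro s
    induction s using Finset.induction_on with
    | empty =>
      intro X _ hX
      exact P.triangEnvelope.prop_of_isZero (hcons X fun j => hX j (Finset.notMem_empty j))
    | insert k s hk ih =>
      intro X hπ hX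
      obtain ⟨H, i, p, hip, hH, hx⟩ := exists_weight_part hcons Fr.one_lt
        (show End X from Fr.φ X) Q hQ1 hπ (hnil X) k
      obtain ⟨Y, g, δ, hT⟩ := distinguished_cocone_triangle i
      have hinj : ∀ (j : ℤ) (x : R.Hm j H), R.mp j i x = 0 → x = 0 := by
        intro j x hx
        have h1 : R.mp j (i ≫ p) x = 0 := by rw [mp_comp_apply, hx, map_zero]
        rwa [hip, mp_id] at h1
      have hsurj : ∀ (j : ℤ) (y : R.Hm j Y), ∃ x, R.mp j g x = y := by
        intro j y
        refine R.exact₃ hT j y ?_
        change R.mp j δ y = 0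
        refine mp_shift_injective rfl i (hinj (1 + j)) _ ?_
        have h3 : δ ≫ i⟦(1 : ℤ)⟧' = 0 := comp_distTriang_mor_zero₃₁ _ hT
        rw [← mp_comp_apply, h3, mp_zero, LinearMap.zero_apply]
      refine P.triangEnvelope.ext_of_isTriangulatedClosed₂ _ hT
        (P.le_triangEnvelope _ (hP' k H hH)) (ih Y (fun j => ?_) fun j hj => ?_)
      · ext y
        obtain ⟨x, rfl⟩ := hsurj j y
        rw [LinearMap.zero_apply, ← hnat, hπ, LinearMap.zero_apply, map_zero]
      · have h1 : ∀ y : R.Hm j Y, y = 0 := by
          intro y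
          obtain ⟨x, rfl⟩ := hsurj j y
          by_cases hjk : j = k
          · subst hjk
            rw [← hx x, ← mp_comp_apply]
            have h4 : i ≫ g = 0 := comp_distTriang_mor_zero₁₂ _ hT
            rw [assoc, h4, Limits.comp_zero, mp_zero, LinearMap.zero_apply]
          · rw [show x = 0 from (hX j (by
              rw [Finset.mem_insert, not_or]
              exact ⟨hjk, hj⟩)).elim _ _, map_zero]
        exact ⟨fun x y => (h1 x).trans (h1 y).symm⟩
  obtain ⟨b, hb⟩ := R.bounded A
  refine key (Finset.Icc (-|b|) |b|) A hπA fun j hj => hb j ?_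
  rw [Finset.mem_Icc, ← abs_le, not_le] at hj
  exact lt_of_le_of_lt (le_abs_self b) hj

end Realization

end Pool.Agent.Lib.MotT
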